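import Pool.Agent.N95.GH.Top

/-!
MP_6f117a_ag, Q1: all projective varieties with a finite correspondence of small degree to a generic
complete intersection are algebraically hyperbolic, and all their closed subvarieties are of general
type.

Let `K` be an algebraically closed field of characteristic `0`, and let `k` be a field contained in
`K`, with algebraic closure `k'` in `K`. A *generic complete intersection* `X` (`GenericCI k K`, in
`Pool/Agent/N111/GI/Maps.lean`) is the intersection of a closed subset `V` of a projective space,
defined over `k'`, of dimension at most `m`, and of hypersurfaces `F a = 0` of degrees `d a`, where
the ratios of the coefficients of `F a` to one of them are, for all `a` together, algebraically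
independent over `k`. Let `S` be the sum of the numbers `d a + 1`.

Let `Z` be a closed subset of a projective space (not necessarily irreducible or smooth), given by
the set `Φ` of forms. A *finite multi-valued map* with at most `r` values from `Z` to `X` (`FinMap`,
in `Pool/Agent/N95/GH/Cor.lean`) is a closed subset `Γ` of `Z × X`, given by bihomogeneous
polynomials, such that the fibres of `Γ → Z` have at least one and at most `r` points, and the
fibres of `Γ → X` have at most `N` points, for some `N`. For instance, if `W → Z` is a finite
surjective morphism of degree at most `r` (with fibres of at most `r` points), and `W → X` is a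
finite morphism, then the image of `W` in `Z × X` is a finite multi-valued map. So `Z` can be the
quotient, by a finite group of order at most `r`, of any finite cover `W` of a closed subset of `X`,
or any closed subset of this quotient, or any image of `W` under a finite morphism with fibres of at
most `r` points. For `r = 1`, these are the finite covers of the closed subsets of `X`.

The closed subvarieties of `Z` are given by their function fields `E` and their generic points `z`
(`coords K z = ⊤`: the ratios of the coordinates generate `E`). A morphism to `Z` from a smooth
projective curve is given by a point `f` of `Z` over the function field `E` of the curve, and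
`pht K f` is its degree (the degree of the pullback of `O(1)`). An extension of fields `E / B` is a
covering of the curve with function field `B`, and `canDeg K B = 2 g - 2`, where `g` is the genus of
this curve.
-/

set_option autoImplicit false
set_option linter.overlappingInstances false

namespace Pool.Agent.Results.MP_6f117a_ag.FiniteCorrespondences

open Pool.Agent.N111.GI (GenericCI)
open Pool.Agent.N95.GH (FinMap AllCoverBound AllGeneral)

/-- Let `Z = {Φ = 0}` have a finite multi-valued map with at most `r` values to a generic complete
intersection `X`, and suppose that `S ≥ 2 m + max (ρ r, 2)`, for some `ρ ≥ 1`. Then

(1) there is a constant `A` such that, for all smooth projective curves `C` and all coverings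
`C' → C` of degree at most `ρ` by smooth projective curves `C'`, all morphisms from `C'` to `Z` have
degree at most `A max (2 g (C) - 2, 0)`; in particular (`ρ = 1`), `Z` is algebraically hyperbolic;

(2) all closed subvarieties of positive dimension of `Z` are of general type, that is, `Z` is
hyperbolic. -/
theorem result {k K : Type} [Field k] [Field K] [IsAlgClosed K] [CharZero K] [Algebra k K]
    {M : ℕ} {Φ : Set (MvPolynomial (Fin (M + 1)) K)} (hΦ : ∀ f ∈ Φ, ∃ e, f.IsHomogeneous e)
    {X : GenericCI k K} {r ρ : ℕ} (C : FinMap Φ X r) (hρ : 1 ≤ ρ)
    (hS : 2 * X.m + ρ * r ≤ ∑ a, (X.d a + 1)) (hS' : 2 * X.m + 2 ≤ ∑ a, (X.d a + 1)) :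
    AllCoverBound K ρ Φ ∧ AllGeneral Φ := by
  refine ⟨C.cover hΦ hS hS', C.general hΦ ?_ hS'⟩
  have h1 : 1 * r ≤ ρ * r := Nat.mul_le_mul_right r hρ
  omega

end Pool.Agent.Results.MP_6f117a_ag.FiniteCorrespondences
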