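import Mathlib
import Pool.Agent.X333.DC.FimT

/-!
# The notions of hyperbolicity for the finite images of varieties given by nested sums of high powers

`V = {F = 0}` is a projective variety given by nested sums of high powers of linear forms, or of monomials (`HighTowers`,
`Pool/Agent/TH710/ND/Proj.lean`), `X = {Φ = 0}` is the image of `V` under a morphism `G` with fibres of at most `r`
points (`Mor`, `Onto`, `FibresLe`, `im`: `Pool/Agent/Y221/FQ/Defs.lean`), for instance a quotient of `V` by a finite group of
order at most `r` or a general linear projection. Nothing is assumed about the singularities, the branch locus, or the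
equations of `X`.

`AlgHyperbolic`, `BoundedOnCurves` are in `Pool/Agent/W603/CX/Groupless.lean`, `CoverHyperbolic ρ A` (the degree of a
morphism to `X` from a curve `C'` which has a morphism of degree at most `ρ` to a curve `C` is at most
`A max (2 g (C) - 2, 0)`) in `Pool/Agent/Y221/AH/Top.lean`, `AllGeneral` (all closed subvarieties of positive dimension
are of general type) in `Pool/Agent/Y221/FQ/Defs.lean`, `GmCurve`, `SpGm` (nonconstant morphisms from the multiplicative
group, closure of the union of their images) in `Pool/Agent/W602/GT/SpGmDefs.lean`, and `HypMod`, `BddMod`, `GenMod`, the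
same notions modulo a closed subset, in `Pool/Agent/X333/DC/FimT.lean`.

The theorem consists of the unused theorems `four_tfae` and `mod_tfae` of `Pool.Agent.X333.DC` (starting library).
-/

set_option autoImplicit false

namespace Pool.Agent.Results.MP_6f117a_ag.NestedImages

open FF Pool.Agent.W602.GT Pool.Agent.Y221.FQ Pool.Agent.Y221.AH Pool.Agent.X333.DC
open Pool.Agent.TH710.ND (HighTowers)
open Pool.Agent.W603.CX (AlgHyperbolic BoundedOnCurves)

/-- Let `k` be an algebraically closed field of characteristic zero, let `V = {F = 0}` in `ℙⁿ` be given by finitely many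
nested sums of high powers of linear forms, or of monomials (at most `h + 1` levels, at most `s` summands at each), and let
`X = {Φ = 0}` be the image of `V` under a morphism `G` with fibres of at most `r` points; the exponents are at least
`8 ρ r (n + 1) (h + 1) (2 s + 1) ^ 5`.

(1) Equivalent are: `X` is algebraically hyperbolic; the bound holds also for the curves with a map of degree at most `ρ`
to a curve `C`, in terms of the genus of `C`; the degrees of the morphisms from each curve to `X` are bounded; there are
no nonconstant morphisms from the multiplicative group to `X` (the same for `V`); all closed subvarieties of positive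
dimension of `X` are of general type.

(2) The same modulo any closed subset `{H = 0 for all H in T}` of `X`: equivalent are linear bounds (for `ρ`-sheeted
covers of curves as well) for the degrees of all curves in `X` which are not contained in the closed subset; bounds for the
maps from each curve; all nonconstant images of the multiplicative group in `X` lie in the closed subset; all closed
subvarieties of positive dimension of `X` which are not contained in it are of general type; it contains the image of the
closure of the union of the images of the multiplicative group in `V`. -/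
theorem result {k : Type} [Field k] [IsAlgClosed k] [CharZero k] {n M : ℕ} {ι μ : Type} [Finite ι]
    {F : ι → MvPolynomial (Fin (n + 1)) k} {Φ : μ → MvPolynomial (Fin (M + 1)) k}
    {G : Fin (M + 1) → MvPolynomial (Fin (n + 1)) k} (hΦ : ∀ e, IsForm (Φ e)) (hG : Mor F Φ G)
    (hon : Onto F Φ G) {ρ r s N h : ℕ} (hfib : FibresLe F G r) (hF : HighTowers s N h F) (hr : 1 ≤ r)
    (hρ : 1 ≤ ρ) (hN : 8 * (ρ * r * ((n + 1) * ((h + 1) * (2 * s + 1) ^ 5))) ≤ N) :
    [∃ A : ℕ, AlgHyperbolic A Φ, ∃ A : ℕ, CoverHyperbolic ρ A Φ, BoundedOnCurves Φ,
      ∀ P, ¬ GmCurve Φ P, AllGeneral Φ, ∀ P, ¬ GmCurve F P].TFAE ∧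
    ∀ T : Set (MvPolynomial (Fin (M + 1)) k), (∀ H ∈ T, IsForm H) →
      [∃ A : ℕ, HypMod 1 A Φ T, ∃ A : ℕ, HypMod ρ A Φ T, BddMod Φ T,
        ∀ P, GmCurve Φ P → ∀ t : k, t ≠ 0 → ∀ H ∈ T, val (fun i => (P i).eval t) H = 0,
        GenMod Φ T, ∀ x ∈ SpGm F, ∀ H ∈ T, val (im G x) H = 0].TFAE :=
  ⟨four_tfae hΦ hG hon hfib hF hr hρ hN, fun _ hT => mod_tfae hΦ hG hon hfib hF hr hρ hN hT⟩

end Pool.Agent.Results.MP_6f117a_ag.NestedImages
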