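import Mathlib
import Pool.Agent.X333.MC.Bound

/-!
# The four notions of hyperbolicity for projective varieties given by nested sums of high powers of monomials

Projective varieties given by nested sums of few high powers of monomials (with coefficients), over any algebraically
closed field of characteristic zero. `MTower` (`Pool/Agent/X333/MC/Core.lean`) says that `F` is a nested sum of few high
powers of monomials; `AlgHyperbolic`, `BoundedOnCurves`, `OrbitsConstant` are in `Pool/Agent/W603/CX/Groupless.lean`,
`GmCurve` (nonconstant morphisms from the multiplicative group) and `AllGeneralType` (all closed subvarieties of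
positive dimension are of general type) in `Pool/Agent/W602/GT`, `NestedIn` and `IsMono` in
`Pool/Agent/TH710/ND/Dich.lean`, `DiagCurve` (orbits of diagonal one-parameter groups) and `IsMapXU` in
`Pool/Agent/W602/GT/PsOrb.lean` and `Pool/Agent/X333/MC/Bound.lean`.

The theorem is the unused theorem of `Pool.Agent.X333.MC` (starting library) on the degrees of curves, combined with the
criterion of `Pool.Agent.TH710.ND` for general type.
-/

set_option autoImplicit false

namespace Pool.Agent.Results.MP_6f117a_ag.NestedMonomials

open FF MvPolynomial
open Pool.Agent.W603.CX Pool.Agent.W602.GT Pool.Agent.X333.MC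
open Pool.Agent.W603.PV (pht)
open Pool.Agent.W603.LV (canDeg)
open Pool.Agent.TH710.NU (zeroInf)
open Pool.Agent.TH710.ND (NestedIn IsMono)

/-- The degrees of the morphisms to `X = {F = 0, x_j ≠ 0 for j in U}` from the smooth projective curves without the
points of a finite set `S` whose image is not contained in the base locus `{G = 0 for all G in A}` are at most
`B max (2 g - 2, 0)`. -/
def GenusBound {k : Type} [Field k] {n : ℕ} {ι : Type} (U : Set (Fin (n + 1)))
    (F : ι → MvPolynomial (Fin (n + 1)) k) (A : Set (MvPolynomial (Fin (n + 1)) k)) (B : ℕ) : Prop :=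
  ∀ (L : Type) [Field L] [Algebra k L] [IsFF k L] (S : Finset (Place k L)) (f : Fin (n + 1) → L),
    IsMapXU U F S f → (∃ G ∈ A, aeval f G ≠ 0) → pht k f ≤ B * max (canDeg k L) 0

/-- Let `X = {F_e = 0}` be a projective variety over an algebraically closed field `k` of characteristic zero, given by
nested sums of few high powers of monomials.

(1) Equivalent are: `X` is algebraically hyperbolic; the degrees of the morphisms from each smooth projective curve to
`X` are bounded; there are no nonconstant morphisms from the multiplicative group to `X`; all one-parameter groups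
of diagonal matrices have only constant orbits in `X`. If the exponents are large, it is also equivalent that all closed
subvarieties of `X` of positive dimension are of general type.

(2) The same for the complement of coordinate hyperplanes and modulo any closed subset `{G = 0 for all G in A}`: the degrees
of all curves in `X° = {F = 0, x_j ≠ 0 for j ∈ U}` which are not contained in the closed subset are at most
`B max (2 g - 2, 0)`, for some `B` and whatever the number of the points at infinity, if and only if the degrees of the
maps from the multiplicative group to `X°` whose image is not contained in the closed subset are bounded, if and only if all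
nonconstant orbits in `X°` of one-parameter groups of diagonal matrices are contained in the closed subset. -/
theorem result {k : Type} [Field k] [IsAlgClosed k] [CharZero k] {n : ℕ} {ι : Type}
    {F : ι → MvPolynomial (Fin (n + 1)) k} (hF : ∀ e, MTower (F e)) (hf : ∀ e, IsForm (F e)) :
    [∃ A : ℕ, AlgHyperbolic A F, BoundedOnCurves F, ∀ P, ¬ GmCurve F P, OrbitsConstant F].TFAE ∧
    (∀ s N h : ℕ, (∀ e, NestedIn IsMono s N h (F e)) → (n + 1) * ((h + 1) * (2 * s + 1) ^ 5) ≤ N →
      [∃ A : ℕ, AlgHyperbolic A F, BoundedOnCurves F, ∀ P, ¬ GmCurve F P, OrbitsConstant F,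
        AllGeneralType F].TFAE) ∧
    ∀ (U : Set (Fin (n + 1))) (A : Set (MvPolynomial (Fin (n + 1)) k)),
      [∃ B : ℕ, GenusBound U F A B,
        ∃ B : ℤ, ∀ f : Fin (n + 1) → RatFunc k, IsMapXU U F (zeroInf k) f → (∃ G ∈ A, aeval f G ≠ 0) →
          pht k f ≤ B,
        ∀ x b, DiagCurve U F x b → ∀ G ∈ A, val x G = 0].TFAE := by
  have h1 := four_monos hF hf
  refine ⟨h1, fun s N h hF' hN => ?_, fun U A => ?_⟩
  · obtain ⟨hNb, hN2, hN1⟩ := Pool.Agent.TH710.ND.bnd_le hN
    tfae_have 1 ↔ 2 := h1.out 0 1
    tfae_have 1 ↔ 3 := h1.out 0 2
    tfae_have 1 ↔ 4 := h1.out 0 3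
    tfae_have 3 ↔ 5 := (Pool.Agent.TH710.ND.all_iff (Or.inr fun e => ⟨hf e, hF' e⟩) hNb).symm
    tfae_finish
  · have h2 := mod_monos (U := U) hF hf A
    tfae_have 1 ↔ 2 := h2.out 0 4
    tfae_have 1 ↔ 3 := h2.out 0 5
    tfae_finish

end Pool.Agent.Results.MP_6f117a_ag.NestedMonomials
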